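import Mathlib

/-!
# The region bounded by a histogram

Columns `1, …, N`; column `k` is `[x (k-1), x k]` with height `H k`; `H 0 = H (N+1) = 0`.
-/

namespace Pool.Agent.Helper68.DY

open Set

/-- the curve of a histogram -/
def hcurve (N : ℕ) (x H : ℕ → ℝ) : Set (ℝ × ℝ) :=
  {p | x 0 ≤ p.1 ∧ p.1 ≤ x N ∧ p.2 = 0} ∪
  {p | ∃ k, 1 ≤ k ∧ k ≤ N ∧ x (k - 1) ≤ p.1 ∧ p.1 ≤ x k ∧ p.2 = H k} ∪
  {p | ∃ k, k ≤ N ∧ p.1 = x k ∧ min (H k) (H (k + 1)) ≤ p.2 ∧ p.2 ≤ max (H k) (H (k + 1))}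

/-- the region bounded by a closed curve (as in `OrthPolygon.region`) -/
def reg (B : Set (ℝ × ℝ)) : Set (ℝ × ℝ) :=
  B ∪ {p | p ∉ B ∧ Bornology.IsBounded (connectedComponentIn Bᶜ p)}

/-- the closed histogram -/
def hbox (N : ℕ) (x H : ℕ → ℝ) : Set (ℝ × ℝ) :=
  ⋃ k ∈ Finset.Icc 1 N, Icc (x (k - 1)) (x k) ×ˢ Icc 0 (H k)

theorem mem_hbox {N : ℕ} {x H : ℕ → ℝ} {p : ℝ × ℝ} :
    p ∈ hbox N x H ↔ ∃ k, 1 ≤ k ∧ k ≤ N ∧ x (k - 1) ≤ p.1 ∧ p.1 ≤ x k ∧ 0 ≤ p.2 ∧ p.2 ≤ H k := by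
  simp only [hbox, mem_iUnion, Finset.mem_Icc, mem_prod, mem_Icc, exists_prop]
  constructor
  · rintro ⟨k, ⟨h1, h2⟩, ⟨h3, h4⟩, h5, h6⟩
    exact ⟨k, h1, h2, h3, h4, h5, h6⟩
  · rintro ⟨k, h1, h2, h3, h4, h5, h6⟩
    exact ⟨k, ⟨h1, h2⟩, ⟨h3, h4⟩, h5, h6⟩

theorem isClosed_hbox (N : ℕ) (x H : ℕ → ℝ) : IsClosed (hbox N x H) :=
  isClosed_biUnion_finset fun _ _ => isClosed_Icc.prod isClosed_Icc

theorem isBounded_hbox (N : ℕ) (x H : ℕ → ℝ) : Bornology.IsBounded (hbox N x H) :=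
  (Bornology.isBounded_biUnion_finset _).2 fun _ _ =>
    (Metric.isBounded_Icc _ _).prod (Metric.isBounded_Icc _ _)

section

variable {N : ℕ} {x H : ℕ → ℝ}

theorem x_mono (hx : ∀ k, k < N → x k < x (k + 1)) {i j : ℕ} (hij : i ≤ j) (hj : j ≤ N) :
    x i ≤ x j := by
  induction j, hij using Nat.le_induction with
  | base => exact le_refl _
  | succ j hj' ih => exact (ih (by omega)).trans (hx j (by omega)).le

theorem x_lt (hx : ∀ k, k < N → x k < x (k + 1)) {i j : ℕ} (hij : i < j) (hj : j ≤ N) :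
    x i < x j :=
  (hx i (by omega)).trans_le (x_mono hx (by omega) hj)

theorem col_unique (hx : ∀ k, k < N → x k < x (k + 1)) {j k : ℕ} (hj1 : 1 ≤ j) (hj : j ≤ N)
    (hk1 : 1 ≤ k) (hk : k ≤ N) {a : ℝ} (h1 : x (k - 1) < a) (h2 : a < x k) (h3 : x (j - 1) ≤ a)
    (h4 : a ≤ x j) : j = k := by
  by_contra hne
  rcases lt_or_gt_of_ne hne with h | h
  · have := x_mono hx (show j ≤ k - 1 by omega) (by omega)
    linarith
  · have := x_mono hx (show k ≤ j - 1 by omega) (by omega)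
    linarith

/-- a point of the curve above or below an open column lies on the base or on the top -/
theorem hcurve_col (hx : ∀ k, k < N → x k < x (k + 1)) {k : ℕ} (hk1 : 1 ≤ k) (hk : k ≤ N)
    {a b : ℝ} (h1 : x (k - 1) < a) (h2 : a < x k) (h : (a, b) ∈ hcurve N x H) :
    b = 0 ∨ b = H k := by
  rcases h with (⟨-, -, h⟩ | ⟨j, hj1, hj, h3, h4, h5⟩) | ⟨j, hj, h3, -, -⟩
  · exact Or.inl h
  · rw [col_unique hx hj1 hj hk1 hk h1 h2 h3 h4] at h5
    exact Or.inr h5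
  · exfalso
    dsimp only at h3
    rw [h3] at h1 h2
    by_cases hjk : j ≤ k - 1
    · have := x_mono hx hjk (by omega)
      linarith
    · have := x_mono hx (show k ≤ j by omega) hj
      linarith

theorem hcurve_subset_hbox (hx : ∀ k, k < N → x k < x (k + 1)) (hN : 1 ≤ N) (h0 : H 0 = 0)
    (hN1 : H (N + 1) = 0) (hH : ∀ k, 1 ≤ k → k ≤ N → 0 < H k) : hcurve N x H ⊆ hbox N x H := by
  rintro ⟨a, b⟩ h
  rw [mem_hbox]
  dsimp only
  rcases h with (⟨h1, h2, h3⟩ | ⟨j, hj1, hj, h3, h4, h5⟩) | ⟨j, hj, h3, h4, h5⟩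
  · dsimp only at h1 h2 h3
    have key : ∀ M, 1 ≤ M → M ≤ N → a ≤ x M → ∃ k, 1 ≤ k ∧ k ≤ M ∧ x (k - 1) ≤ a ∧ a ≤ x k := by
      intro M hM
      induction M, hM using Nat.le_induction with
      | base =>
        intro _ h
        exact ⟨1, le_refl _, le_refl _, h1, h⟩
      | succ M hM ih =>
        intro hMN h
        by_cases h' : a ≤ x M
        · obtain ⟨k, hk1, hk2, hk3, hk4⟩ := ih (by omega) h'
          exact ⟨k, hk1, by omega, hk3, hk4⟩
        · exact ⟨M + 1, by omega, le_refl _, (not_le.1 h').le, h⟩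
    obtain ⟨k, hk1, hk2, hk3, hk4⟩ := key N hN (le_refl _) h2
    exact ⟨k, hk1, hk2, hk3, hk4, h3.ge, by rw [h3]; exact (hH k hk1 hk2).le⟩
  · dsimp only at h3 h4 h5
    exact ⟨j, hj1, hj, h3, h4, by rw [h5]; exact (hH j hj1 hj).le, h5.le⟩
  · dsimp only at h3 h4 h5
    have hnn : ∀ i, i ≤ N + 1 → 0 ≤ H i := by
      intro i hi
      rcases Nat.eq_zero_or_pos i with h | h
      · rw [h, h0]
      · rcases Nat.lt_or_ge N i with h' | h'
        · rw [show i = N + 1 by omega, hN1]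
        · exact (hH i h h').le
    have hb : 0 ≤ b := (le_min (hnn j (by omega)) (hnn (j + 1) (by omega))).trans h4
    rcases le_max_iff.1 h5 with h6 | h6
    · rcases Nat.eq_zero_or_pos j with h | h
      · subst h
        rw [h0] at h6
        exact ⟨1, le_refl _, hN, h3.ge, by rw [h3]; exact (hx 0 (by omega)).le, hb,
          h6.trans (hH 1 (le_refl _) hN).le⟩
      · exact ⟨j, h, hj, by rw [h3]; exact x_mono hx (by omega) hj, h3.le, hb, h6⟩
    · rcases Nat.lt_or_ge j N with h | h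
      · exact ⟨j + 1, by omega, by omega, h3.ge, by rw [h3]; exact (hx j h).le, hb, h6⟩
      · have hjN : j = N := by omega
        subst hjN
        rw [hN1] at h6
        exact ⟨j, hN, le_refl _, by rw [h3]; exact x_mono hx (by omega) hj, h3.le, hb,
          h6.trans (hH j hN (le_refl _)).le⟩

theorem open_col_subset {k : ℕ} (hk1 : 1 ≤ k) (hk : k ≤ N) :
    Ioo (x (k - 1)) (x k) ×ˢ Ioo 0 (H k) ⊆ interior (hbox N x H) := by
  refine interior_maximal ?_ (isOpen_Ioo.prod isOpen_Ioo)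
  rintro ⟨a, b⟩ ⟨⟨h1, h2⟩, h3, h4⟩
  exact mem_hbox.2 ⟨k, hk1, hk, h1.le, h2.le, h3.le, h4.le⟩

theorem wall_subset {j : ℕ} (hj1 : 1 ≤ j) (hj : j < N) :
    Ioo (x (j - 1)) (x (j + 1)) ×ˢ Ioo 0 (min (H j) (H (j + 1))) ⊆ interior (hbox N x H) := by
  refine interior_maximal ?_ (isOpen_Ioo.prod isOpen_Ioo)
  rintro ⟨a, b⟩ ⟨⟨h1, h2⟩, h3, h4⟩
  dsimp only at h1 h2 h3 h4
  have h5 := h4.trans_le (min_le_left _ _)
  have h6 := h4.trans_le (min_le_right _ _)
  rcases le_total a (x j) with h | h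
  · exact mem_hbox.2 ⟨j, hj1, hj.le, h1.le, h, h3.le, h5.le⟩
  · exact mem_hbox.2 ⟨j + 1, by omega, hj, h, h2.le, h3.le, h6.le⟩

theorem hbox_diff_subset (hx : ∀ k, k < N → x k < x (k + 1)) (h0 : H 0 = 0)
    (hN1 : H (N + 1) = 0) : hbox N x H \ hcurve N x H ⊆ interior (hbox N x H) := by
  rintro ⟨a, b⟩ ⟨hK, hB⟩
  obtain ⟨k, hk1, hk, h1, h2, h3, h4⟩ := mem_hbox.1 hK
  dsimp only at h1 h2 h3 h4
  have hb0 : 0 < b := by
    refine lt_of_le_of_ne h3 fun h => hB ?_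
    exact Or.inl (Or.inl ⟨(x_mono hx (Nat.zero_le _) (by omega)).trans h1,
      h2.trans (x_mono hx hk (le_refl _)), h.symm⟩)
  have hbk : b < H k := by
    refine lt_of_le_of_ne h4 fun h => hB ?_
    exact Or.inl (Or.inr ⟨k, hk1, hk, h1, h2, h⟩)
  -- walls
  have wall : ∀ j, 1 ≤ j → j < N → a = x j → (b < H j ∨ b < H (j + 1)) →
      (a, b) ∈ interior (hbox N x H) := by
    intro j hj1 hj ha hor
    have hmin : b < min (H j) (H (j + 1)) := by
      by_contra hcon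
      rw [not_lt] at hcon
      refine hB (Or.inr ⟨j, hj.le, ha, hcon, ?_⟩)
      rcases hor with h | h
      · exact h.le.trans (le_max_left _ _)
      · exact h.le.trans (le_max_right _ _)
    refine wall_subset hj1 hj ⟨⟨?_, ?_⟩, hb0, hmin⟩
    · dsimp only
      rw [ha]
      exact x_lt hx (by omega) hj.le
    · dsimp only
      rw [ha]
      exact hx j hj
  rcases h1.lt_or_eq with h5 | h5
  · rcases h2.lt_or_eq with h6 | h6
    · exact open_col_subset hk1 hk ⟨⟨h5, h6⟩, hb0, hbk⟩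
    · rcases hk.lt_or_eq with h7 | h7
      · exact wall k hk1 h7 h6 (Or.inl hbk)
      · exfalso
        subst h7
        refine hB (Or.inr ⟨k, le_refl _, h6, ?_, hbk.le.trans (le_max_left _ _)⟩)
        rw [hN1]
        exact (min_le_right _ _).trans hb0.le
  · rcases Nat.eq_or_lt_of_le hk1 with h7 | h7
    · exfalso
      subst h7
      refine hB (Or.inr ⟨0, Nat.zero_le _, h5.symm, ?_, hbk.le.trans (le_max_right _ _)⟩)
      rw [h0]
      exact (min_le_left _ _).trans hb0.le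
    · refine wall (k - 1) (by omega) (by omega) h5.symm (Or.inr ?_)
      rwa [show k - 1 + 1 = k by omega]

theorem interior_subset_reg (hx : ∀ k, k < N → x k < x (k + 1)) (h0 : H 0 = 0)
    (hN1 : H (N + 1) = 0) : interior (hbox N x H) ⊆ reg (hcurve N x H) := by
  intro p hp
  by_cases hB : p ∈ hcurve N x H
  · exact Or.inl hB
  · refine Or.inr ⟨hB, ?_⟩
    have hsub : connectedComponentIn (hcurve N x H)ᶜ p ⊆ interior (hbox N x H) := by
      refine isPreconnected_connectedComponentIn.subset_of_closure_inter_subset isOpen_interior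
        ⟨p, mem_connectedComponentIn hB, hp⟩ ?_
      rintro q ⟨hq1, hq2⟩
      refine hbox_diff_subset hx h0 hN1 ⟨?_, connectedComponentIn_subset _ _ hq2⟩
      exact closure_minimal interior_subset (isClosed_hbox N x H) hq1
    exact (isBounded_hbox N x H).subset (hsub.trans interior_subset)

/-- Points above a column are not in the region. -/
theorem notMem_reg_of_above (hx : ∀ k, k < N → x k < x (k + 1)) {k : ℕ} (hk1 : 1 ≤ k)
    (hk : k ≤ N) (hH : 0 ≤ H k) {a b : ℝ} (h1 : x (k - 1) < a) (h2 : a < x k) (h3 : H k < b) :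
    (a, b) ∉ reg (hcurve N x H) := by
  have hray : ({a} ×ˢ Ici b : Set (ℝ × ℝ)) ⊆ (hcurve N x H)ᶜ := by
    rintro ⟨a', t⟩ ⟨ha, ht⟩ hmem
    rw [mem_singleton_iff] at ha
    dsimp only at ha
    subst ha
    have ht' : b ≤ t := ht
    rcases hcurve_col hx hk1 hk h1 h2 hmem with h | h <;> linarith
  have hp : (a, b) ∈ ({a} ×ˢ Ici b : Set (ℝ × ℝ)) := ⟨mem_singleton _, self_mem_Ici⟩
  rintro (h | ⟨-, h⟩)
  · exact hray hp h
  · have hconn : IsPreconnected ({a} ×ˢ Ici b : Set (ℝ × ℝ)) :=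
      ((convex_singleton a).prod (convex_Ici b)).isPreconnected
    have hsub := hconn.subset_connectedComponentIn hp hray
    have hbd : Bornology.IsBounded (Ici b) :=
      Bornology.IsBounded.snd_of_prod (h.subset hsub) (singleton_nonempty a)
    obtain ⟨c, hc⟩ := hbd.bddAbove
    have h4 := hc (show max b (c + 1) ∈ Ici b from mem_Ici.2 (le_max_left _ _))
    have h5 := le_max_right b (c + 1)
    linarith

/-- Points below the base line are not in the region. -/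
theorem notMem_reg_of_below (hx : ∀ k, k < N → x k < x (k + 1)) {k : ℕ} (hk1 : 1 ≤ k)
    (hk : k ≤ N) (hH : 0 ≤ H k) {a b : ℝ} (h1 : x (k - 1) < a) (h2 : a < x k) (h3 : b < 0) :
    (a, b) ∉ reg (hcurve N x H) := by
  have hray : ({a} ×ˢ Iic b : Set (ℝ × ℝ)) ⊆ (hcurve N x H)ᶜ := by
    rintro ⟨a', t⟩ ⟨ha, ht⟩ hmem
    rw [mem_singleton_iff] at ha
    dsimp only at ha
    subst ha
    have ht' : t ≤ b := ht
    rcases hcurve_col hx hk1 hk h1 h2 hmem with h | h <;> linarith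
  have hp : (a, b) ∈ ({a} ×ˢ Iic b : Set (ℝ × ℝ)) := ⟨mem_singleton _, self_mem_Iic⟩
  rintro (h | ⟨-, h⟩)
  · exact hray hp h
  · have hconn : IsPreconnected ({a} ×ˢ Iic b : Set (ℝ × ℝ)) :=
      ((convex_singleton a).prod (convex_Iic b)).isPreconnected
    have hsub := hconn.subset_connectedComponentIn hp hray
    have hbd : Bornology.IsBounded (Iic b) :=
      Bornology.IsBounded.snd_of_prod (h.subset hsub) (singleton_nonempty a)
    obtain ⟨c, hc⟩ := hbd.bddBelow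
    have h4 := hc (show min b (c - 1) ∈ Iic b from mem_Iic.2 (min_le_left _ _))
    have h5 := min_le_right b (c - 1)
    linarith

/-- Points inside a column are not in the exterior. -/
theorem notMem_ext_of_inside (hx : ∀ k, k < N → x k < x (k + 1)) (h0 : H 0 = 0)
    (hN1 : H (N + 1) = 0) {k : ℕ} (hk1 : 1 ≤ k) (hk : k ≤ N) {a b : ℝ} (h1 : x (k - 1) < a)
    (h2 : a < x k) (h3 : 0 < b) (h4 : b < H k) : (a, b) ∉ closure (reg (hcurve N x H))ᶜ := by
  intro h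
  have hsub : (reg (hcurve N x H))ᶜ ⊆ (Ioo (x (k - 1)) (x k) ×ˢ Ioo 0 (H k))ᶜ :=
    compl_subset_compl.2 ((open_col_subset hk1 hk).trans (interior_subset_reg hx h0 hN1))
  have hcl : IsClosed (Ioo (x (k - 1)) (x k) ×ˢ Ioo 0 (H k) : Set (ℝ × ℝ))ᶜ :=
    (isOpen_Ioo.prod isOpen_Ioo).isClosed_compl
  exact closure_minimal hsub hcl h ⟨⟨h1, h2⟩, h3, h4⟩

/-- Points of a wall strictly below both neighbouring tops are not in the exterior. -/
theorem notMem_ext_of_wall (hx : ∀ k, k < N → x k < x (k + 1)) (h0 : H 0 = 0)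
    (hN1 : H (N + 1) = 0) {j : ℕ} (hj1 : 1 ≤ j) (hj : j < N) {b : ℝ} (h3 : 0 < b)
    (h4 : b < H j) (h5 : b < H (j + 1)) : (x j, b) ∉ closure (reg (hcurve N x H))ᶜ := by
  intro h
  have hsub : (reg (hcurve N x H))ᶜ ⊆
      (Ioo (x (j - 1)) (x (j + 1)) ×ˢ Ioo 0 (min (H j) (H (j + 1))))ᶜ :=
    compl_subset_compl.2 ((wall_subset hj1 hj).trans (interior_subset_reg hx h0 hN1))
  have hcl : IsClosed (Ioo (x (j - 1)) (x (j + 1)) ×ˢ Ioo 0 (min (H j) (H (j + 1))) :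
      Set (ℝ × ℝ))ᶜ := (isOpen_Ioo.prod isOpen_Ioo).isClosed_compl
  exact closure_minimal hsub hcl h ⟨⟨x_lt hx (by omega) hj.le, hx j hj⟩, h3, lt_min h4 h5⟩

/-- Top points are in the region. -/
theorem top_mem_reg {k : ℕ} (hk1 : 1 ≤ k) (hk : k ≤ N) {a : ℝ} (h1 : x (k - 1) ≤ a)
    (h2 : a ≤ x k) : (a, H k) ∈ reg (hcurve N x H) :=
  Or.inl (Or.inl (Or.inr ⟨k, hk1, hk, h1, h2, rfl⟩))

/-- Top points are in the exterior. -/
theorem top_mem_ext (hx : ∀ k, k < N → x k < x (k + 1)) {k : ℕ} (hk1 : 1 ≤ k)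
    (hk : k ≤ N) (hH : 0 ≤ H k) {a : ℝ} (h1 : x (k - 1) < a) (h2 : a < x k) :
    (a, H k) ∈ closure (reg (hcurve N x H))ᶜ := by
  have hsub : ({a} ×ˢ Ioi (H k) : Set (ℝ × ℝ)) ⊆ (reg (hcurve N x H))ᶜ := by
    rintro ⟨a', t⟩ ⟨ha, ht⟩
    rw [mem_singleton_iff] at ha
    dsimp only at ha
    subst ha
    exact notMem_reg_of_above hx hk1 hk hH h1 h2 ht
  refine closure_mono hsub ?_
  rw [closure_prod_eq, closure_singleton, closure_Ioi]
  exact ⟨mem_singleton _, self_mem_Ici⟩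

end

/-! ### columns `0, …, N-1` with heights `h k` over `[x k, x (k+1)]` -/

/-- heights with the two virtual columns of height `0` -/
def hext (N : ℕ) (h : ℕ → ℝ) (k : ℕ) : ℝ := if k = 0 ∨ N < k then 0 else h (k - 1)

/-- the curve of a histogram, columns `0, …, N-1` -/
def hcurve0 (N : ℕ) (x h : ℕ → ℝ) : Set (ℝ × ℝ) :=
  {p | x 0 ≤ p.1 ∧ p.1 ≤ x N ∧ p.2 = 0} ∪
  {p | ∃ k, k < N ∧ x k ≤ p.1 ∧ p.1 ≤ x (k + 1) ∧ p.2 = h k} ∪
  {p | ∃ k, k ≤ N ∧ p.1 = x k ∧ min (hext N h k) (hext N h (k + 1)) ≤ p.2 ∧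
    p.2 ≤ max (hext N h k) (hext N h (k + 1))}

section

variable {N : ℕ} {x h : ℕ → ℝ}

theorem hext_zero : hext N h 0 = 0 := if_pos (Or.inl rfl)

theorem hext_last : hext N h (N + 1) = 0 := if_pos (Or.inr (Nat.lt_succ_self N))

theorem hext_succ {k : ℕ} (hk : k < N) : hext N h (k + 1) = h k := by
  rw [hext, if_neg (by omega), Nat.add_sub_cancel]

theorem hcurve0_eq : hcurve0 N x h = hcurve N x (hext N h) := by
  ext ⟨a, b⟩
  constructor
  · rintro ((h1 | ⟨k, hk, h2, h3, h4⟩) | h1)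
    · exact Or.inl (Or.inl h1)
    · exact Or.inl (Or.inr ⟨k + 1, by omega, hk, by rwa [Nat.add_sub_cancel], h3,
        by rw [hext_succ hk]; exact h4⟩)
    · exact Or.inr h1
  · rintro ((h1 | ⟨k, hk1, hk, h2, h3, h4⟩) | h1)
    · exact Or.inl (Or.inl h1)
    · obtain ⟨j, rfl⟩ : ∃ j, k = j + 1 := ⟨k - 1, by omega⟩
      rw [Nat.add_sub_cancel] at h2
      rw [hext_succ (by omega)] at h4
      exact Or.inl (Or.inr ⟨j, by omega, h2, h3, h4⟩)
    · exact Or.inr h1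

variable (hx : ∀ k, k < N → x k < x (k + 1))

include hx

theorem above (k : ℕ) (hk : k < N) (hh : 0 ≤ h k) {a b : ℝ} (h1 : x k < a) (h2 : a < x (k + 1))
    (h3 : h k < b) : (a, b) ∉ reg (hcurve0 N x h) := by
  rw [hcurve0_eq]
  have e := hext_succ (h := h) hk
  exact notMem_reg_of_above hx (k := k + 1) (by omega) hk (by rw [e]; exact hh)
    (by rwa [Nat.add_sub_cancel]) h2 (by rwa [e])

theorem below (k : ℕ) (hk : k < N) (hh : 0 ≤ h k) {a b : ℝ} (h1 : x k < a) (h2 : a < x (k + 1))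
    (h3 : b < 0) : (a, b) ∉ reg (hcurve0 N x h) := by
  rw [hcurve0_eq]
  have e := hext_succ (h := h) hk
  exact notMem_reg_of_below hx (k := k + 1) (by omega) hk (by rw [e]; exact hh)
    (by rwa [Nat.add_sub_cancel]) h2 h3

theorem inside (k : ℕ) (hk : k < N) {a b : ℝ} (h1 : x k < a) (h2 : a < x (k + 1)) (h3 : 0 < b)
    (h4 : b < h k) : (a, b) ∉ closure (reg (hcurve0 N x h))ᶜ := by
  rw [hcurve0_eq]
  have e := hext_succ (h := h) hk
  exact notMem_ext_of_inside hx hext_zero hext_last (k := k + 1) (by omega) hk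
    (by rwa [Nat.add_sub_cancel]) h2 h3 (by rwa [e])

theorem inside_wall (j : ℕ) (hj1 : 1 ≤ j) (hj : j < N) {b : ℝ} (h3 : 0 < b) (h4 : b < h (j - 1))
    (h5 : b < h j) : (x j, b) ∉ closure (reg (hcurve0 N x h))ᶜ := by
  rw [hcurve0_eq]
  have e := hext_succ (h := h) hj
  have e' := hext_succ (N := N) (h := h) (k := j - 1) (by omega)
  rw [Nat.sub_add_cancel hj1] at e'
  exact notMem_ext_of_wall hx hext_zero hext_last hj1 hj h3 (by rwa [e']) (by rwa [e])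

omit hx in
theorem top_mem (k : ℕ) (hk : k < N) {a : ℝ} (h1 : x k ≤ a) (h2 : a ≤ x (k + 1)) :
    (a, h k) ∈ reg (hcurve0 N x h) :=
  Or.inl (Or.inl (Or.inr ⟨k, hk, h1, h2, rfl⟩))

theorem top_mem_exterior (k : ℕ) (hk : k < N) (hh : 0 ≤ h k) {a : ℝ} (h1 : x k < a)
    (h2 : a < x (k + 1)) : (a, h k) ∈ closure (reg (hcurve0 N x h))ᶜ := by
  rw [hcurve0_eq]
  have e := hext_succ (h := h) hk
  have := top_mem_ext (H := hext N h) hx (k := k + 1) (by omega) hk (by rw [e]; exact hh)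
    (a := a) (by rwa [Nat.add_sub_cancel]) h2
  rwa [e] at this

end

end Pool.Agent.Helper68.DY
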