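import Pool.Agent.Helper67.DY.Hist
import Pool.Agent.Helper68.DY.Hist

/-!
# The region and the exterior of the histogram polygon (H2)
-/

namespace Pool.Agent.Helper68.DY

open Set Pool.Agent.Helper67.PY Pool.Agent.Helper67.DY

variable (Q : Hist)

theorem H_even_eq {k : ℕ} (hk : k ≤ Q.N) : Q.H (2 * k) = hext Q.N Q.h k := by
  rcases Nat.eq_zero_or_pos k with h | h
  · subst h
    rw [hext_zero]
    exact Q.H_zero
  · rw [Q.H_even h hk, hext, if_neg (by omega)]

theorem H_odd_eq {k : ℕ} (hk : k ≤ Q.N) : Q.H (2 * k + 1) = hext Q.N Q.h (k + 1) := by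
  rcases hk.lt_or_eq with h | h
  · rw [Q.H_odd h, hext_succ h]
  · subst h
    rw [Q.H_last, hext_last]

theorem boundary_eq : Q.poly.boundary = hcurve0 Q.N Q.x Q.h := by
  ext p
  rw [Q.mem_boundary]
  constructor
  · rintro (h | ⟨k, hk, h⟩ | ⟨k, hk, h1, h2⟩)
    · exact Or.inl (Or.inl h)
    · exact Or.inl (Or.inr ⟨k, hk, h⟩)
    · rw [H_even_eq Q hk, H_odd_eq Q hk] at h2
      exact Or.inr ⟨k, hk, h1, h2⟩
  · rintro ((h | ⟨k, hk, h⟩) | ⟨k, hk, h1, h2⟩)
    · exact Or.inl h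
    · exact Or.inr (Or.inl ⟨k, hk, h⟩)
    · refine Or.inr (Or.inr ⟨k, hk, h1, ?_⟩)
      rw [H_even_eq Q hk, H_odd_eq Q hk]
      exact h2

theorem region_eq : Q.poly.region = reg (hcurve0 Q.N Q.x Q.h) := by
  rw [OrthPolygon.region, reg, boundary_eq]

theorem exterior_eq : Q.poly.exterior = closure (reg (hcurve0 Q.N Q.x Q.h))ᶜ := by
  rw [OrthPolygon.exterior, region_eq]

theorem hx1 : ∀ k, k < Q.N → Q.x k < Q.x (k + 1) := fun k hk =>
  Q.hx k (k + 1) (Nat.lt_succ_self k) hk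

/-- Points strictly above a column are not in the region. -/
theorem notMem_region_above {k : ℕ} (hk : k < Q.N) {a b : ℝ} (h1 : Q.x k < a)
    (h2 : a < Q.x (k + 1)) (h3 : Q.h k < b) : (a, b) ∉ Q.poly.region := by
  rw [region_eq]
  exact above (hx1 Q) k hk (Q.hpos k hk).le h1 h2 h3

/-- Points strictly below the base are not in the region. -/
theorem notMem_region_below {k : ℕ} (hk : k < Q.N) {a b : ℝ} (h1 : Q.x k < a)
    (h2 : a < Q.x (k + 1)) (h3 : b < 0) : (a, b) ∉ Q.poly.region := by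
  rw [region_eq]
  exact below (hx1 Q) k hk (Q.hpos k hk).le h1 h2 h3

/-- Points strictly inside a column are not in the exterior. -/
theorem notMem_exterior_inside {k : ℕ} (hk : k < Q.N) {a b : ℝ} (h1 : Q.x k < a)
    (h2 : a < Q.x (k + 1)) (h3 : 0 < b) (h4 : b < Q.h k) : (a, b) ∉ Q.poly.exterior := by
  rw [exterior_eq]
  exact inside (hx1 Q) k hk h1 h2 h3 h4

/-- Points of a wall line strictly below both neighbouring tops are not in the exterior. -/
theorem notMem_exterior_wall {j : ℕ} (hj1 : 1 ≤ j) (hj : j < Q.N) {b : ℝ} (h3 : 0 < b)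
    (h4 : b < Q.h (j - 1)) (h5 : b < Q.h j) : (Q.x j, b) ∉ Q.poly.exterior := by
  rw [exterior_eq]
  exact inside_wall (hx1 Q) j hj1 hj h3 h4 h5

theorem boundary_subset_region : Q.poly.boundary ⊆ Q.poly.region := subset_union_left

/-- Points of the top of a column are in the region. -/
theorem top_mem_region {k : ℕ} (hk : k < Q.N) {a : ℝ} (h1 : Q.x k ≤ a) (h2 : a ≤ Q.x (k + 1)) :
    (a, Q.h k) ∈ Q.poly.region := by
  rw [region_eq]
  exact top_mem k hk h1 h2

/-- Points of the open column at or above the top are in the exterior. -/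
theorem above_mem_exterior {k : ℕ} (hk : k < Q.N) {a b : ℝ} (h1 : Q.x k ≤ a)
    (h2 : a ≤ Q.x (k + 1)) (h3 : Q.h k ≤ b) : (a, b) ∈ Q.poly.exterior := by
  have hsub : (Ioo (Q.x k) (Q.x (k + 1)) ×ˢ Ioi (Q.h k) : Set (ℝ × ℝ)) ⊆ (Q.poly.region)ᶜ := by
    rintro ⟨a', t⟩ ⟨ha, ht⟩
    exact notMem_region_above Q hk ha.1 ha.2 ht
  refine closure_mono hsub ?_
  rw [closure_prod_eq, closure_Ioo (hx1 Q k hk).ne, closure_Ioi]
  exact ⟨⟨h1, h2⟩, h3⟩

/-- Points of the top of a column are in the exterior. -/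
theorem top_mem_exterior' {k : ℕ} (hk : k < Q.N) {a : ℝ} (h1 : Q.x k ≤ a)
    (h2 : a ≤ Q.x (k + 1)) : (a, Q.h k) ∈ Q.poly.exterior :=
  above_mem_exterior Q hk h1 h2 le_rfl

/-- Points of a column are in the region. -/
theorem inside_mem_region {k : ℕ} (hk : k < Q.N) {a b : ℝ} (h1 : Q.x k < a)
    (h2 : a < Q.x (k + 1)) (h3 : 0 < b) (h4 : b ≤ Q.h k) : (a, b) ∈ Q.poly.region := by
  rcases h4.lt_or_eq with h5 | h5
  · by_contra hcon
    exact notMem_exterior_inside Q hk h1 h2 h3 h5 (subset_closure hcon)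
  · rw [h5]
    exact top_mem_region Q hk h1.le h2.le

/-- The left and right end of the top of a column, as vertices of the polygon, are in the region
and in the exterior. -/
theorem V_left_mem {k : ℕ} (hk : k < Q.N) :
    Q.poly.pt (Q.ix (2 * k + 1)) ∈ Q.poly.region ∧ Q.poly.pt (Q.ix (2 * k + 1)) ∈ Q.poly.exterior := by
  rw [Q.pt_l hk]
  exact ⟨top_mem_region Q hk le_rfl (hx1 Q k hk).le,
    top_mem_exterior' Q hk le_rfl (hx1 Q k hk).le⟩

theorem V_right_mem {k : ℕ} (hk : k < Q.N) :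
    Q.poly.pt (Q.ix (2 * k + 2)) ∈ Q.poly.region ∧ Q.poly.pt (Q.ix (2 * k + 2)) ∈ Q.poly.exterior := by
  rw [Q.pt_r hk]
  exact ⟨top_mem_region Q hk (hx1 Q k hk).le le_rfl,
    top_mem_exterior' Q hk (hx1 Q k hk).le le_rfl⟩

end Pool.Agent.Helper68.DY
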